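import Pool.Agent.Helper7.LP.Main
import Pool.Agent.Helper7.LP.Area
import Pool.Agent.Helper78.LE.LE15

/-!
Linear programming lower bound for the next order term of the minimal logarithmic energy on
`S^d`, for every `d ≥ 1`.
-/

set_option autoImplicit false

open MeasureTheory Set Filter Topology

namespace Pool.Agent.Results.MP_d7f1f6_an.LinearProgramming

/-- `ℝ^n` with the Euclidean norm -/
abbrev E (n : ℕ) := EuclideanSpace ℝ (Fin n)

/-- logarithmic energy of `N` points, sum over ordered pairs `i ≠ j` -/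
noncomputable def logEnergy {n N : ℕ} (x : Fin N → E n) : ℝ :=
  ∑ i, ∑ j, if i = j then 0 else -Real.log ‖x i - x j‖

/-- the energies of all families of `N` distinct points of the unit sphere `S^d` of `ℝ^(d+1)` -/
def energySet (d N : ℕ) : Set ℝ :=
  {e : ℝ | ∃ x : Fin N → E (d + 1),
    (∀ i, ‖x i‖ = 1) ∧ Function.Injective x ∧ e = logEnergy x}

/-- the minimal logarithmic energy -/
noncomputable def minLog (d N : ℕ) : ℝ := sInf (energySet d N)

/-- surface measure of `S^d` -/
noncomputable def sphMeas (d : ℕ) : Measure (Metric.sphere (0 : E (d + 1)) 1) :=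
  (volume : Measure (E (d + 1))).toSphere

/-- the surface area `H_d(S^d)` -/
noncomputable def sphArea (d : ℕ) : ℝ := (sphMeas d Set.univ).toReal

/-- `V_log(S^d)` -/
noncomputable def Vlog (d : ℕ) : ℝ :=
  (∫ x, ∫ y, -Real.log ‖(x : E (d + 1)) - (y : E (d + 1))‖ ∂(sphMeas d) ∂(sphMeas d)) /
    sphArea d ^ 2

theorem energySet_bddBelow (d N : ℕ) : BddBelow (energySet d N) := by
  refine ⟨∑ _i : Fin N, ∑ _j : Fin N, -Real.log 2, ?_⟩
  rintro e ⟨x, hx, -, rfl⟩
  apply Finset.sum_le_sum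
  intro i _
  apply Finset.sum_le_sum
  intro j _
  split_ifs with h
  · have : 0 < Real.log 2 := Real.log_pos (by norm_num)
    linarith
  · exact Pool.Agent.Helper78.LE.neg_log_two_le _ _ (hx i) (hx j)

theorem energySet_nonempty (d N : ℕ) (hd : 0 < d) : (energySet d N).Nonempty := by
  let e : E d := EuclideanSpace.single (⟨0, hd⟩ : Fin d) (1 : ℝ)
  have he : e ≠ 0 := by
    intro h
    have h1 : ‖e‖ = 1 := by simp [e]
    rw [h, norm_zero] at h1
    exact zero_ne_one h1
  refine ⟨_, fun i : Fin N => Pool.Agent.Helper78.LE.stereo (((i : ℕ) : ℝ) • e),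
    fun i => Pool.Agent.Helper78.LE.norm_stereo _, ?_, rfl⟩
  intro i j hij
  have h1 : (((i : ℕ) : ℝ) • e) = (((j : ℕ) : ℝ) • e) :=
    Pool.Agent.Helper78.LE.LE2.stereo_injective hij
  have h2 : ((i : ℕ) : ℝ) = ((j : ℕ) : ℝ) := smul_left_injective ℝ he h1
  exact Fin.ext (by exact_mod_cast h2)

/-- The linear programming bound: `F ≥ 0` is integrable on `ℝ^d`, its cosine transform `f` is
integrable and at most `E₁(a |x|²) = ∫_a^∞ exp(-t |x|²) dt/t` for `x ≠ 0`. Then the coefficient of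
`N` in the minimal logarithmic energy on `S^d` is at least
`(1/d) log H_d + (1/2) (-γ - log a - (2/d) (π/a)^(d/2) + ∫ f - f(0))`. -/
theorem result (d : ℕ) (hd : 0 < d) :
    (∀ N : ℕ, (energySet d N).Nonempty ∧ BddBelow (energySet d N)) ∧
    ∀ (a : ℝ) (F f : E d → ℝ), 0 < a → Integrable F → (∀ ξ, 0 ≤ F ξ) →
      (∀ x, f x = ∫ ξ, F ξ * Real.cos (inner ℝ ξ x)) → Integrable f →
      (∀ x, x ≠ 0 → f x ≤ ∫ t in Ioi a, Real.exp (-(t * ‖x‖ ^ 2)) / t) →
      ∀ ε : ℝ, 0 < ε → ∀ᶠ N : ℕ in atTop,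
        Vlog d * (N : ℝ) ^ 2 - 1 / d * (N * Real.log N) +
          (1 / d * Real.log (sphArea d) + 1 / 2 * (-Real.eulerMascheroniConstant - Real.log a -
            2 / d * (Real.pi / a) ^ ((d : ℝ) / 2) + ((∫ x, f x) - f 0)) - ε) * N ≤
          minLog d N := by
  refine ⟨fun N => ⟨energySet_nonempty d N hd, energySet_bddBelow d N⟩, ?_⟩
  intro a F f ha hF hF0 hf hfi hle ε hε
  have h := Pool.Agent.Helper7.LP.lp hd a ha F f hF hF0 hf hfi hle ε hε
  rw [Pool.Agent.Helper7.LP.EI_eq a ha] at h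
  have h1 : -Real.eulerMascheroniConstant - Real.log a =
      -Real.log a - Real.eulerMascheroniConstant := by ring
  rw [h1]
  exact h

end Pool.Agent.Results.MP_d7f1f6_an.LinearProgramming
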