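import Pool.Agent.Helper7.LP.Nums
import Pool.Agent.Helper78.LE.LE15

/-!
Explicit lower bounds for the coefficient of `N` in the minimal logarithmic energy on `S^d`,
`d = 2, 4, 8, 24`.
-/

set_option autoImplicit false

open MeasureTheory Set Filter Topology

namespace Pool.Agent.Results.MP_d7f1f6_an.NearSharpLowerBounds

/-- `ℝ^n` with the Euclidean norm -/
abbrev E (n : ℕ) := EuclideanSpace ℝ (Fin n)

/-- logarithmic energy of `N` points, sum over ordered pairs `i ≠ j` -/
noncomputable def logEnergy {n N : ℕ} (x : Fin N → E n) : ℝ :=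
  ∑ i, ∑ j, if i = j then 0 else -Real.log ‖x i - x j‖

/-- the energies of all families of `N` distinct points of the unit sphere `S^d` of `ℝ^(d+1)` -/
def energySet (d N : ℕ) : Set ℝ :=
  {e : ℝ | ∃ x : Fin N → E (d + 1),
    (∀ i, ‖x i‖ = 1) ∧ Function.Injective x ∧ e = logEnergy x}

/-- the minimal logarithmic energy -/
noncomputable def minLog (d N : ℕ) : ℝ := sInf (energySet d N)

/-- surface measure of `S^d` -/
noncomputable def sphMeas (d : ℕ) : Measure (Metric.sphere (0 : E (d + 1)) 1) :=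
  (volume : Measure (E (d + 1))).toSphere

/-- the surface area `H_d(S^d)` -/
noncomputable def sphArea (d : ℕ) : ℝ := (sphMeas d Set.univ).toReal

/-- `V_log(S^d)` -/
noncomputable def Vlog (d : ℕ) : ℝ :=
  (∫ x, ∫ y, -Real.log ‖(x : E (d + 1)) - (y : E (d + 1))‖ ∂(sphMeas d) ∂(sphMeas d)) /
    sphArea d ^ 2

theorem energySet_bddBelow (d N : ℕ) : BddBelow (energySet d N) := by
  refine ⟨∑ _i : Fin N, ∑ _j : Fin N, -Real.log 2, ?_⟩
  rintro e ⟨x, hx, -, rfl⟩
  apply Finset.sum_le_sum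
  intro i _
  apply Finset.sum_le_sum
  intro j _
  split_ifs with h
  · have : 0 < Real.log 2 := Real.log_pos (by norm_num)
    linarith
  · exact Pool.Agent.Helper78.LE.neg_log_two_le _ _ (hx i) (hx j)

theorem energySet_nonempty (d N : ℕ) (hd : 0 < d) : (energySet d N).Nonempty := by
  let e : E d := EuclideanSpace.single (⟨0, hd⟩ : Fin d) (1 : ℝ)
  have he : e ≠ 0 := by
    intro h
    have h1 : ‖e‖ = 1 := by simp [e]
    rw [h, norm_zero] at h1
    exact zero_ne_one h1
  refine ⟨_, fun i : Fin N => Pool.Agent.Helper78.LE.stereo (((i : ℕ) : ℝ) • e),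
    fun i => Pool.Agent.Helper78.LE.norm_stereo _, ?_, rfl⟩
  intro i j hij
  have h1 : (((i : ℕ) : ℝ) • e) = (((j : ℕ) : ℝ) • e) :=
    Pool.Agent.Helper78.LE.LE2.stereo_injective hij
  have h2 : ((i : ℕ) : ℝ) = ((j : ℕ) : ℝ) := smul_left_injective ℝ he h1
  exact Fin.ext (by exact_mod_cast h2)

/-- `minLog d N ≥ V_log(S^d) N² - (1/d) N log N + c N` for all large `N` -/
def LowerBound (d : ℕ) (c : ℝ) : Prop :=
  ∀ᶠ N : ℕ in atTop, Vlog d * (N : ℝ) ^ 2 - 1 / d * (N * Real.log N) + c * N ≤ minLog d N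

/-- Lower bounds for the coefficient of `N` in the minimal logarithmic energy on `S^d` for
`d = 2, 4, 8, 24`; the conjectured values are `-0.05560530...`, `-0.2274592...`,
`-0.4712426...`, `-0.9227110...`. -/
theorem result :
    (∀ d N : ℕ, 0 < d → (energySet d N).Nonempty ∧ BddBelow (energySet d N)) ∧
    LowerBound 2 (-0.0556056) ∧ LowerBound 4 (-0.230262) ∧ LowerBound 8 (-0.471245) ∧
    LowerBound 24 (-0.92276) :=
  ⟨fun d N hd => ⟨energySet_nonempty d N hd, energySet_bddBelow d N⟩,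
    Pool.Agent.Helper7.LP.num2, Pool.Agent.Helper7.LP.num4, Pool.Agent.Helper7.LP.num8,
    Pool.Agent.Helper7.LP.num24⟩

end Pool.Agent.Results.MP_d7f1f6_an.NearSharpLowerBounds
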