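import Pool.Agent.Helper78.LE.LE15
import Pool.Agent.Helper78.LE.LB14
import Pool.Agent.Helper78.LE.LB15
import Pool.Agent.Helper78.LE.LB17

/-!
The next order term of the minimal logarithmic energy on `S^d`, for every dimension `d ≥ 1`:
an upper bound for every lattice of `ℝ^d` (in particular for `A₂`, `D₄`, `E₈` and the Leech
lattice, which give the conjectured value in dimension `2, 4, 8, 24`), and a lower bound by the
same Gaussian formula, in which the theta function of the lattice is replaced by the least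
Gaussian energy per point of the periodic configurations of density `1`.
-/

set_option autoImplicit false

open MeasureTheory Set Filter Topology

namespace Pool.Agent.Results.MP_d7f1f6_an.TwoSided

/-- `ℝ^n` with the Euclidean norm -/
abbrev E (n : ℕ) := EuclideanSpace ℝ (Fin n)

/-- logarithmic energy of `N` points, sum over ordered pairs `i ≠ j` -/
noncomputable def logEnergy {n N : ℕ} (x : Fin N → E n) : ℝ :=
  ∑ i, ∑ j, if i = j then 0 else -Real.log ‖x i - x j‖

/-- the energies of all families of `N` distinct points of the unit sphere `S^d` of `ℝ^(d+1)` -/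
def energySet (d N : ℕ) : Set ℝ :=
  {e : ℝ | ∃ x : Fin N → E (d + 1),
    (∀ i, ‖x i‖ = 1) ∧ Function.Injective x ∧ e = logEnergy x}

/-- the minimal logarithmic energy -/
noncomputable def minLog (d N : ℕ) : ℝ := sInf (energySet d N)

/-- surface measure of `S^d` -/
noncomputable def sphMeas (d : ℕ) : Measure (Metric.sphere (0 : E (d + 1)) 1) :=
  (volume : Measure (E (d + 1))).toSphere

/-- the surface area `H_d(S^d)` -/
noncomputable def sphArea (d : ℕ) : ℝ := (sphMeas d Set.univ).toReal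

/-- `V_log(S^d)` -/
noncomputable def Vlog (d : ℕ) : ℝ :=
  (∫ x, ∫ y, -Real.log ‖(x : E (d + 1)) - (y : E (d + 1))‖ ∂(sphMeas d) ∂(sphMeas d)) /
    sphArea d ^ 2

/-- covolume of the lattice spanned by the basis `b` -/
noncomputable def covol {d : ℕ} (b : Module.Basis (Fin d) ℝ (E d)) : ℝ :=
  (volume (ZSpan.fundamentalDomain b)).toReal

/-- the lattice vector with integer coordinates `n` -/
noncomputable def latVec {d : ℕ} (b : Module.Basis (Fin d) ℝ (E d)) (n : Fin d → ℤ) : E d :=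
  ∑ i, (n i : ℝ) • b i

/-- `Z` is the analytic continuation of the zeta function of the lattice to `Re s > -1`,
`s ≠ d` -/
def IsZeta {d : ℕ} (b : Module.Basis (Fin d) ℝ (E d)) (Z : ℂ → ℂ) : Prop :=
  (∀ s : ℂ, -1 < s.re → s ≠ d → DifferentiableAt ℂ Z s) ∧
  ∀ s : ℂ, (d : ℝ) < s.re →
    Z s = ∑' n : {n : Fin d → ℤ // n ≠ 0}, ((‖latVec b n.1‖ : ℝ) : ℂ) ^ (-s)

/-- the Gaussian `exp (-t r²)` -/
noncomputable def gauss (t r : ℝ) : ℝ := Real.exp (-(t * r ^ 2))

/-- Gaussian energy per point of the lattice: the sum over its nonzero vectors -/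
noncomputable def theta {d : ℕ} (b : Module.Basis (Fin d) ℝ (E d)) (t : ℝ) : ℝ :=
  ∑' n : {n : Fin d → ℤ // n ≠ 0}, gauss t ‖latVec b n.1‖

/-- Gaussian energy of one period of the periodic configuration `y + Λ'`, `Λ'` the lattice with
basis `b'` -/
noncomputable def perEnergy {d : ℕ} (b' : Module.Basis (Fin d) ℝ (E d)) {n : ℕ}
    (y : Fin n → E d) (t : ℝ) : ℝ :=
  ∑ i, ∑ j, ∑' v : Fin d → ℤ, if i = j ∧ v = 0 then 0 else gauss t ‖y i - y j + latVec b' v‖

/-- the Gaussian energies per point of the periodic configurations of density `1` in `ℝ^d`: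
`n ≥ 1` points which are distinct modulo a lattice of covolume `n` -/
def perSet (d : ℕ) (t : ℝ) : Set ℝ :=
  {e : ℝ | ∃ (n : ℕ) (b' : Module.Basis (Fin d) ℝ (E d)) (y : Fin n → E d), 0 < n ∧
    (∀ (i j : Fin n) (v : Fin d → ℤ), y i - y j + latVec b' v = 0 → i = j) ∧
    covol b' = n ∧ e = perEnergy b' y t / n}

/-- the least Gaussian energy per point at density `1` -/
noncomputable def eOpt (d : ℕ) (t : ℝ) : ℝ := sInf (perSet d t)

/-- the integrand of the lower bound -/
noncomputable def lowInt (d : ℕ) (t : ℝ) : ℝ :=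
  (eOpt d t - (Real.pi / t) ^ ((d : ℝ) / 2) + Real.exp (-t)) / t

/-- the integrand belonging to the lattice with basis `b` -/
noncomputable def thetaInt {d : ℕ} (b : Module.Basis (Fin d) ℝ (E d)) (t : ℝ) : ℝ :=
  (theta b t - (Real.pi / t) ^ ((d : ℝ) / 2) / covol b + Real.exp (-t)) / t

theorem energySet_bddBelow (d N : ℕ) : BddBelow (energySet d N) := by
  refine ⟨∑ _i : Fin N, ∑ _j : Fin N, -Real.log 2, ?_⟩
  rintro e ⟨x, hx, -, rfl⟩
  apply Finset.sum_le_sum
  intro i _
  apply Finset.sum_le_sum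
  intro j _
  split_ifs with h
  · have : 0 < Real.log 2 := Real.log_pos (by norm_num)
    linarith
  · exact Pool.Agent.Helper78.LE.neg_log_two_le _ _ (hx i) (hx j)

theorem energySet_nonempty (d N : ℕ) (hd : 0 < d) : (energySet d N).Nonempty := by
  let e : E d := EuclideanSpace.single (⟨0, hd⟩ : Fin d) (1 : ℝ)
  have he : e ≠ 0 := by
    intro h
    have h1 : ‖e‖ = 1 := by simp [e]
    rw [h, norm_zero] at h1
    exact zero_ne_one h1
  refine ⟨_, fun i : Fin N => Pool.Agent.Helper78.LE.stereo (((i : ℕ) : ℝ) • e),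
    fun i => Pool.Agent.Helper78.LE.norm_stereo _, ?_, rfl⟩
  intro i j hij
  have h1 : (((i : ℕ) : ℝ) • e) = (((j : ℕ) : ℝ) • e) :=
    Pool.Agent.Helper78.LE.LE2.stereo_injective hij
  have h2 : ((i : ℕ) : ℝ) = ((j : ℕ) : ℝ) := smul_left_injective ℝ he h1
  exact Fin.ext (by exact_mod_cast h2)

/-- the asymptotic upper bound with coefficient `C` -/
def Upper (d : ℕ) (C : ℝ) : Prop :=
  ∀ ε : ℝ, 0 < ε → ∀ᶠ N : ℕ in atTop,
    minLog d N ≤ Vlog d * (N : ℝ) ^ 2 - 1 / d * (N * Real.log N) + (C + ε) * N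

/-- the asymptotic lower bound with coefficient `C` -/
def Lower (d : ℕ) (C : ℝ) : Prop :=
  ∀ ε : ℝ, 0 < ε → ∀ᶠ N : ℕ in atTop,
    Vlog d * (N : ℝ) ^ 2 - 1 / d * (N * Real.log N) + (C - ε) * N ≤ minLog d N

theorem tendsto_of (d : ℕ) (C : ℝ) (h1 : Upper d C) (h2 : Lower d C) :
    Tendsto (fun N : ℕ => (minLog d N - Vlog d * (N : ℝ) ^ 2 + 1 / d * (N * Real.log N)) / N)
      atTop (𝓝 C) := by
  rw [Metric.tendsto_nhds]
  intro ε hε
  filter_upwards [h1 (ε / 2) (by positivity), h2 (ε / 2) (by positivity), eventually_gt_atTop 0]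
    with N hu hl hN
  have hN' : (0 : ℝ) < N := by exact_mod_cast hN
  rw [Real.dist_eq, abs_lt]
  constructor
  · have : C - ε / 2 ≤
        (minLog d N - Vlog d * (N : ℝ) ^ 2 + 1 / d * (N * Real.log N)) / N := by
      rw [le_div_iff₀ hN']
      linarith
    linarith
  · have : (minLog d N - Vlog d * (N : ℝ) ^ 2 + 1 / d * (N * Real.log N)) / N ≤
        C + ε / 2 := by
      rw [div_le_iff₀ hN']
      linarith
    linarith

/-- For every `d ≥ 1`. Lower bound: the coefficient of `N` is at least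
`(1/d) log H_d + (1/2) ∫ lowInt`, which is at least
`(1/d) log H_d - (log π + γ)/2 - 1/d`. Upper bound: for every lattice `Λ` it is at most
`(1/d) log (H_d/|Λ|) + ζ_Λ'(0)`, and `ζ_Λ'(0) = (1/2) ∫ thetaInt`. For `|Λ| = 1` the function
`eOpt` in the lower bound is at most the theta function of `Λ`, and if they are equal, then the
coefficient of `N` converges to the upper bound. -/
theorem result (d : ℕ) (hd : 0 < d) :
    (∀ N : ℕ, (energySet d N).Nonempty ∧ BddBelow (energySet d N)) ∧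
    (∀ t : ℝ, (perSet d t).Nonempty ∧ BddBelow (perSet d t)) ∧
    IntegrableOn (lowInt d) (Ioi 0) ∧
    Lower d (1 / d * Real.log (sphArea d) + 1 / 2 * ∫ t in Ioi (0 : ℝ), lowInt d t) ∧
    (-(Real.log Real.pi + Real.eulerMascheroniConstant) / 2 - 1 / d ≤
      1 / 2 * ∫ t in Ioi (0 : ℝ), lowInt d t) ∧
    ∀ b : Module.Basis (Fin d) ℝ (E d), (∃ Z : ℂ → ℂ, IsZeta b Z) ∧
      ∃ c : ℝ, (∀ Z : ℂ → ℂ, IsZeta b Z → deriv Z 0 = (c : ℂ)) ∧
        IntegrableOn (thetaInt b) (Ioi 0) ∧ c = 1 / 2 * (∫ t in Ioi (0 : ℝ), thetaInt b t) ∧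
        Upper d (1 / d * Real.log (sphArea d / covol b) + c) ∧
        (covol b = 1 → (∀ t : ℝ, eOpt d t ≤ theta b t) ∧
          ((∀ t : ℝ, 0 < t → eOpt d t = theta b t) →
            Tendsto (fun N : ℕ =>
              (minLog d N - Vlog d * (N : ℝ) ^ 2 + 1 / d * (N * Real.log N)) / N)
              atTop (𝓝 (1 / d * Real.log (sphArea d / covol b) + c)))) := by
  have hlow : Lower d (1 / d * Real.log (sphArea d) + 1 / 2 * ∫ t in Ioi (0 : ℝ), lowInt d t) :=
    fun ε hε => Pool.Agent.Helper78.LE.lower hd ε hε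
  refine ⟨fun N => ⟨energySet_nonempty d N hd, energySet_bddBelow d N⟩,
    fun t => ⟨Pool.Agent.Helper78.LE.perSet_nonempty d t,
      Pool.Agent.Helper78.LE.perSet_bddBelow d t⟩,
    Pool.Agent.Helper78.LE.II_int hd, hlow, Pool.Agent.Helper78.LE.II_lower hd, fun b => ?_⟩
  obtain ⟨⟨Z0, hZ0⟩, hmain⟩ := Pool.Agent.Helper78.LE.main d hd b
  obtain ⟨hTint, hTval⟩ := Pool.Agent.Helper78.LE.zeta_theta b hd Z0 hZ0
  have hup : Upper d (1 / d * Real.log (sphArea d / covol b) + (deriv Z0 0).re) :=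
    fun ε hε => hmain Z0 hZ0 ε hε
  have hc : (deriv Z0 0).re = 1 / 2 * (∫ t in Ioi (0 : ℝ), thetaInt b t) := by
    have h : ∫ t in Ioi (0 : ℝ), thetaInt b t = 2 * (deriv Z0 0).re := hTval
    rw [h]
    ring
  refine ⟨⟨Z0, hZ0⟩, (deriv Z0 0).re, ?_, hTint, hc, hup, fun hb => ⟨?_, fun hopt => ?_⟩⟩
  · intro Z hZ
    have h1 := Pool.Agent.Helper78.LE.hasSum_Gam b d hd (by omega) Z hZ
    have h2 := Pool.Agent.Helper78.LE.hasSum_Gam b d hd (by omega) Z0 hZ0
    have h3 : deriv Z 0 = deriv Z0 0 := h1.unique h2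
    have h4 := (Complex.hasSum_ofReal.mp (by
      have h5 := Complex.hasSum_re h2
      exact Complex.hasSum_ofReal.mpr h5 :
      HasSum (fun x : Fin d → ℤ => ((Pool.Agent.Helper78.LE.Gam b d x : ℝ) : ℂ))
        (((deriv Z0 0).re : ℝ) : ℂ)))
    have h6 : HasSum (fun x : Fin d → ℤ => ((Pool.Agent.Helper78.LE.Gam b d x : ℝ) : ℂ))
        (((deriv Z0 0).re : ℝ) : ℂ) := Complex.hasSum_ofReal.mpr h4
    rw [h3]
    exact h2.unique h6
  · intro t
    exact Pool.Agent.Helper78.LE.eOpt_le_theta b hb t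
  · apply tendsto_of d _ hup
    have h7 : ∫ t in Ioi (0 : ℝ), lowInt d t = ∫ t in Ioi (0 : ℝ), thetaInt b t := by
      apply setIntegral_congr_fun measurableSet_Ioi
      intro t ht
      simp only [lowInt, thetaInt]
      rw [hopt t ht, hb, div_one]
    have h8 : 1 / d * Real.log (sphArea d / covol b) + (deriv Z0 0).re =
        1 / d * Real.log (sphArea d) + 1 / 2 * ∫ t in Ioi (0 : ℝ), lowInt d t := by
      rw [hb, div_one, hc, h7]
    rw [h8]
    exact hlow

end Pool.Agent.Results.MP_d7f1f6_an.TwoSided
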